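import Pool.Agent.Helper54.FH.Defs

/-!
# Elementary facts about hyperbolic length functions
-/

set_option autoImplicit false

namespace Pool.Agent.Helper54.FH

variable {G : Type*} [Group G] {ℓ : G → ℝ} {δ : ℝ}

namespace HypLen

theorem nonneg (H : HypLen ℓ δ) (g : G) : 0 ≤ ℓ g := by
  have h := H.mul_le g g⁻¹
  rw [mul_inv_cancel, H.one, H.inv] at h
  linarith

theorem inv_mul_comm (H : HypLen ℓ δ) (a b : G) : ℓ (a⁻¹ * b) = ℓ (b⁻¹ * a) := by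
  rw [← H.inv (a⁻¹ * b)]; congr 1; group

theorem inv_mul_le (H : HypLen ℓ δ) (a b c : G) : ℓ (a⁻¹ * c) ≤ ℓ (a⁻¹ * b) + ℓ (b⁻¹ * c) := by
  have h := H.mul_le (a⁻¹ * b) (b⁻¹ * c)
  have e : (a⁻¹ * b) * (b⁻¹ * c) = a⁻¹ * c := by group
  rwa [e] at h

theorem gp_comm (H : HypLen ℓ δ) (a b : G) : gp ℓ a b = gp ℓ b a := by
  unfold gp; rw [H.inv_mul_comm a b]; ring

theorem gp_nonneg (H : HypLen ℓ δ) (a b : G) : 0 ≤ gp ℓ a b := by
  unfold gp
  have h := H.mul_le a⁻¹ b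
  rw [H.inv] at h
  linarith

theorem gp_le_left (H : HypLen ℓ δ) (a b : G) : gp ℓ a b ≤ ℓ a := by
  unfold gp
  have h := H.mul_le a (a⁻¹ * b)
  rw [mul_inv_cancel_left] at h
  linarith

theorem gp_le_right (H : HypLen ℓ δ) (a b : G) : gp ℓ a b ≤ ℓ b := by
  rw [H.gp_comm]; exact H.gp_le_left b a

/-- Left translation moves a length by at most the length of the translation. -/
theorem le_mul_left (H : HypLen ℓ δ) (a b : G) : ℓ b ≤ ℓ a + ℓ (a * b) := by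
  have h := H.mul_le a⁻¹ (a * b)
  rw [inv_mul_cancel_left, H.inv] at h
  exact h

theorem le_mul_right (H : HypLen ℓ δ) (a b : G) : ℓ a ≤ ℓ (a * b) + ℓ b := by
  have h := H.mul_le (a * b) b⁻¹
  rw [mul_inv_cancel_right, H.inv] at h
  exact h

/-- `gp` changes by at most `ℓ c` when the second argument is multiplied by `c` on the right. -/
theorem gp_mul_right_le (H : HypLen ℓ δ) (a b c : G) : gp ℓ a (b * c) ≤ gp ℓ a b + ℓ c := by
  unfold gp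
  have h1 := H.mul_le b c
  have h2 := H.le_mul_right (a⁻¹ * b) c
  have e : a⁻¹ * b * c = a⁻¹ * (b * c) := by group
  rw [e] at h2
  linarith

theorem le_gp_mul_right (H : HypLen ℓ δ) (a b c : G) : gp ℓ a b ≤ gp ℓ a (b * c) + ℓ c := by
  have h := H.gp_mul_right_le a (b * c) c⁻¹
  rw [mul_inv_cancel_right, H.inv] at h
  exact h

theorem gp_self (H : HypLen ℓ δ) (a : G) : gp ℓ a a = ℓ a := by
  unfold gp; rw [inv_mul_cancel, H.one]; ring

theorem delta_nonneg (H : HypLen ℓ δ) : 0 ≤ δ := by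
  have h := H.hyp 1 1 1
  rw [min_self] at h
  linarith

/-- Basic dichotomy: if `gp a c` is small then one of `gp a b`, `gp b c` is. -/
theorem gp_min_le (H : HypLen ℓ δ) (a b c : G) : min (gp ℓ a b) (gp ℓ b c) ≤ gp ℓ a c + δ := by
  linarith [H.hyp a b c]

theorem tt_eq_gp (g u : G) : tt ℓ g u = gp ℓ u g := rfl

theorem tt_nonneg (H : HypLen ℓ δ) (g u : G) : 0 ≤ tt ℓ g u := H.gp_nonneg u g

theorem tt_le_len (H : HypLen ℓ δ) (g u : G) : tt ℓ g u ≤ ℓ g := H.gp_le_right u g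

theorem tt_le (H : HypLen ℓ δ) (g u : G) : tt ℓ g u ≤ ℓ u := H.gp_le_left u g

theorem ht_nonneg (H : HypLen ℓ δ) (g u : G) : 0 ≤ ht ℓ g u := by
  unfold ht
  have h := H.mul_le u (u⁻¹ * g)
  rw [mul_inv_cancel_left] at h
  linarith

theorem tt_add_ht (g u : G) : tt ℓ g u + ht ℓ g u = ℓ u := by
  unfold tt ht; ring

theorem len_inv_mul (g u : G) : ℓ (u⁻¹ * g) = ℓ g - tt ℓ g u + ht ℓ g u := by
  unfold tt ht; ring

theorem tt_one (H : HypLen ℓ δ) (g : G) : tt ℓ g 1 = 0 := by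
  unfold tt; rw [inv_one, one_mul, H.one]; ring

theorem ht_one (H : HypLen ℓ δ) (g : G) : ht ℓ g 1 = 0 := by
  unfold ht; rw [inv_one, one_mul, H.one]; ring

theorem tt_self (H : HypLen ℓ δ) (g : G) : tt ℓ g g = ℓ g := by
  unfold tt; rw [inv_mul_cancel, H.one]; ring

theorem ht_self (H : HypLen ℓ δ) (g : G) : ht ℓ g g = 0 := by
  unfold ht; rw [inv_mul_cancel, H.one]; ring

/-- `gp` based at `u` between `1` and `g` is the height. -/
theorem gp_inv_eq_ht (H : HypLen ℓ δ) (g u : G) : gp ℓ u⁻¹ (u⁻¹ * g) = ht ℓ g u := by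
  unfold gp ht
  rw [inv_inv, mul_inv_cancel_left, H.inv]

theorem tt_lip (H : HypLen ℓ δ) (g u v : G) : |tt ℓ g u - tt ℓ g v| ≤ ℓ (u⁻¹ * v) := by
  unfold tt
  have h1 := H.mul_le v (v⁻¹ * u)
  have h2 := H.mul_le u (u⁻¹ * v)
  rw [mul_inv_cancel_left] at h1 h2
  have h3 := H.inv_mul_le u v g
  have h4 := H.inv_mul_le v u g
  rw [H.inv_mul_comm v u] at h4 h1
  rw [abs_le]; constructor <;> linarith

theorem ht_lip (H : HypLen ℓ δ) (g u v : G) : |ht ℓ g u - ht ℓ g v| ≤ ℓ (u⁻¹ * v) := by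
  unfold ht
  have h1 := H.mul_le v (v⁻¹ * u)
  have h2 := H.mul_le u (u⁻¹ * v)
  rw [mul_inv_cancel_left] at h1 h2
  have h3 := H.inv_mul_le u v g
  have h4 := H.inv_mul_le v u g
  rw [H.inv_mul_comm v u] at h4 h1
  rw [abs_le]; constructor <;> linarith

/-- Upper bound of a distance by coordinates and heights. -/
theorem dist_le (H : HypLen ℓ δ) (g u v : G) :
    ℓ (u⁻¹ * v) ≤ |tt ℓ g u - tt ℓ g v| + ht ℓ g u + ht ℓ g v + 2 * δ := by
  have h := H.hyp u g v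
  have e : ℓ (u⁻¹ * v) = ℓ u + ℓ v - 2 * gp ℓ u v := by unfold gp; ring
  have e1 : gp ℓ g v = tt ℓ g v := by rw [H.gp_comm]; rfl
  have e2 : gp ℓ u g = tt ℓ g u := rfl
  rw [e1, e2] at h
  have a1 := tt_add_ht (ℓ := ℓ) g u
  have a2 := tt_add_ht (ℓ := ℓ) g v
  rcases le_total (tt ℓ g u) (tt ℓ g v) with hc | hc
  · rw [min_eq_left hc] at h
    have := neg_le_abs (tt ℓ g u - tt ℓ g v)
    linarith
  · rw [min_eq_right hc] at h
    have := le_abs_self (tt ℓ g u - tt ℓ g v)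
    linarith

/-- Lower bound of a distance by coordinates and heights, for separated coordinates. -/
theorem le_dist (H : HypLen ℓ δ) (g u v : G) (h : tt ℓ g u + δ < tt ℓ g v) :
    tt ℓ g v - tt ℓ g u + ht ℓ g u + ht ℓ g v - 2 * δ ≤ ℓ (u⁻¹ * v) := by
  have h1 := H.hyp u v g
  have e : ℓ (u⁻¹ * v) = ℓ u + ℓ v - 2 * gp ℓ u v := by unfold gp; ring
  have e1 : gp ℓ v g = tt ℓ g v := rfl
  have e2 : gp ℓ u g = tt ℓ g u := rfl
  rw [e1, e2] at h1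
  have a1 := tt_add_ht (ℓ := ℓ) g u
  have a2 := tt_add_ht (ℓ := ℓ) g v
  rcases le_total (gp ℓ u v) (tt ℓ g v) with hc | hc
  · rw [min_eq_left hc] at h1
    linarith
  · rw [min_eq_right hc] at h1
    linarith

/-- Heights over a subsegment `[1, u]` of `[1, g]`. -/
theorem ht_left_le (H : HypLen ℓ δ) (g u v : G) :
    ht ℓ u v ≤ max 0 (tt ℓ g v - tt ℓ g u) + ht ℓ g v + δ := by
  have h := H.dist_le g v u
  have a1 := tt_add_ht (ℓ := ℓ) g u
  have a2 := tt_add_ht (ℓ := ℓ) g v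
  have e : ht ℓ u v = (ℓ v + ℓ (v⁻¹ * u) - ℓ u) / 2 := rfl
  rcases le_total (tt ℓ g v) (tt ℓ g u) with hc | hc
  · rw [abs_of_nonpos (by linarith)] at h
    have := le_max_left 0 (tt ℓ g v - tt ℓ g u)
    linarith
  · rw [abs_of_nonneg (by linarith)] at h
    have := le_max_right 0 (tt ℓ g v - tt ℓ g u)
    linarith

theorem ht_le_ht_left (H : HypLen ℓ δ) (g u v : G) : ht ℓ g v ≤ ht ℓ u v + ht ℓ g u := by
  unfold ht
  have h := H.inv_mul_le v u g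
  linarith

/-- Heights over a subsegment `[u, g]` of `[1, g]`. -/
theorem ht_right_le (H : HypLen ℓ δ) (g u v : G) :
    ht ℓ (u⁻¹ * g) (u⁻¹ * v) ≤ max 0 (tt ℓ g u - tt ℓ g v) + ht ℓ g v + δ := by
  have h := H.dist_le g u v
  have a1 := len_inv_mul (ℓ := ℓ) g u
  have a2 := len_inv_mul (ℓ := ℓ) g v
  have e : ht ℓ (u⁻¹ * g) (u⁻¹ * v) = (ℓ (u⁻¹ * v) + ℓ (v⁻¹ * g) - ℓ (u⁻¹ * g)) / 2 := by
    unfold ht
    have : (u⁻¹ * v)⁻¹ * (u⁻¹ * g) = v⁻¹ * g := by group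
    rw [this]
  rcases le_total (tt ℓ g u) (tt ℓ g v) with hc | hc
  · rw [abs_of_nonpos (by linarith)] at h
    have := le_max_left 0 (tt ℓ g u - tt ℓ g v)
    linarith
  · rw [abs_of_nonneg (by linarith)] at h
    have := le_max_right 0 (tt ℓ g u - tt ℓ g v)
    linarith

theorem ht_le_ht_right (H : HypLen ℓ δ) (g u v : G) :
    ht ℓ g v ≤ ht ℓ (u⁻¹ * g) (u⁻¹ * v) + ht ℓ g u := by
  have e : ht ℓ (u⁻¹ * g) (u⁻¹ * v) = (ℓ (u⁻¹ * v) + ℓ (v⁻¹ * g) - ℓ (u⁻¹ * g)) / 2 := by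
    unfold ht
    have : (u⁻¹ * v)⁻¹ * (u⁻¹ * g) = v⁻¹ * g := by group
    rw [this]
  rw [e]
  unfold ht
  have h := H.mul_le u (u⁻¹ * v)
  rw [mul_inv_cancel_left] at h
  linarith

end HypLen

theorem LocalData.mono {p q : G} {D0 Cp : ℝ} {N : ℝ → ℕ} {E : ℝ → ℝ} {m₁ m₂ : ℕ} {r₁ r₂ : ℝ}
    (h : LocalData ℓ p q D0 Cp N E m₂ r₂) (hm : m₁ ≤ m₂) (hr : r₁ ≤ r₂) :
    LocalData ℓ p q D0 Cp N E m₁ r₁ where
  proper := h.proper
  ball r hr' := h.ball r (hr'.trans hr)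
  q_len := h.q_len
  p_ne m h1 h2 := h.p_ne m h1 (h2.trans_le hm)
  p_len m h1 h2 := h.p_len m h1 (h2.trans_le hm)
  dir_pos m h1 h2 := h.dir_pos m h1 (h2.trans_le hm)
  dir_neg m h1 h2 := h.dir_neg m h1 (h2.trans_le hm)
  near m h1 h2 D hD := h.near m h1 (h2.trans_le hm) D (hD.trans hr)
  path m h1 h2 D hD := h.path m h1 (h2.trans_le hm) D (hD.trans hr)

/-! ### Chains -/

section Chain

variable {C Λ : ℝ} {w x : ℕ → G} {K : ℕ}

/-- Backward Gromov products along a chain: at the cut points. -/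
theorem Chain.back (H : HypLen ℓ δ) (hC : 0 ≤ C) (hΛ : 2 * C + 4 * δ < Λ)
    (c : Chain ℓ C Λ w x K) (i : ℕ) :
    (i ≤ K → gp ℓ (Yw w x i)⁻¹ (w i) ≤ C + δ) ∧
    (i < K → gp ℓ (Yw w x i * w i)⁻¹ (x i) ≤ C + δ) := by
  have hδ := H.delta_nonneg
  induction i with
  | zero =>
    have h0 : ∀ a : G, gp ℓ (1 : G)⁻¹ a ≤ 0 := fun a => by
      have := H.gp_le_left (1 : G)⁻¹ a
      rw [H.inv, H.one] at this
      exact this
    refine ⟨fun _ => ?_, fun h => ?_⟩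
    · show gp ℓ (1 : G)⁻¹ (w 0) ≤ C + δ
      have := h0 (w 0); linarith
    · show gp ℓ ((1 : G) * w 0)⁻¹ (x 0) ≤ C + δ
      rw [one_mul]
      have := c.wx 0 h; linarith
  | succ i ih =>
    -- general step: from `gp a⁻¹ z ≤ C + δ` and `gp z⁻¹ y ≤ C`, `Λ ≤ ℓ z`, get `gp (a*z)⁻¹ y ≤ C + δ`
    have step : ∀ a z y : G, gp ℓ a⁻¹ z ≤ C + δ → gp ℓ z⁻¹ y ≤ C → Λ ≤ ℓ z →
        gp ℓ (a * z)⁻¹ y ≤ C + δ := by
      intro a z y h1 h2 h3
      have h4 := H.gp_min_le z⁻¹ (a * z)⁻¹ y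
      have h5 : gp ℓ z⁻¹ (a * z)⁻¹ = ℓ z - gp ℓ a⁻¹ z := by
        unfold gp
        have e1 : z⁻¹⁻¹ * (a * z)⁻¹ = a⁻¹ := by group
        have e2 : a⁻¹⁻¹ * z = a * z := by group
        rw [e1, e2, H.inv, H.inv, H.inv]; ring
      rcases min_le_iff.mp h4 with h | h
      · rw [h5] at h; linarith
      · linarith
    refine ⟨fun h => ?_, fun h => ?_⟩
    · have h1 := (ih).2 (by omega)
      exact step _ _ _ h1 (c.xw i (by omega)) (c.x_len i (by omega))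
    · have h1 := (ih).2 (by omega)
      have h2 : gp ℓ (Yw w x (i + 1))⁻¹ (w (i + 1)) ≤ C + δ :=
        step _ _ _ h1 (c.xw i (by omega)) (c.x_len i (by omega))
      exact step _ _ _ h2 (c.wx (i + 1) h) (c.w_len (i + 1) h.le)

end Chain

end Pool.Agent.Helper54.FH
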