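import Mathlib

/-!
# Hitting measures of Fuchsian groups converging to a lattice: basic definitions

Part A: groups with a hyperbolic length function (Gromov products, heights, coordinates).
Part B: `SL(2, ℝ)`, the length `len g = dist (g • I) I`, the boundary `OnePoint ℝ`.
-/

set_option autoImplicit false

open scoped MatrixGroups UpperHalfPlane Topology
open UpperHalfPlane Matrix Filter MeasureTheory

namespace Pool.Agent.Helper54.FH

/-! ### Part A: abstract groups with a hyperbolic length -/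

section Abstract

variable {G : Type*} [Group G]

/-- Gromov product based at the identity, for a length function `ℓ`. -/
noncomputable def gp (ℓ : G → ℝ) (a b : G) : ℝ := (ℓ a + ℓ b - ℓ (a⁻¹ * b)) / 2

/-- Coordinate of `u` along the geodesic from `1` to `g` (equal to `gp ℓ u g`). -/
noncomputable def tt (ℓ : G → ℝ) (g u : G) : ℝ := (ℓ u + ℓ g - ℓ (u⁻¹ * g)) / 2

/-- Height of `u` over the geodesic from `1` to `g`. -/
noncomputable def ht (ℓ : G → ℝ) (g u : G) : ℝ := (ℓ u + ℓ (u⁻¹ * g) - ℓ g) / 2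

/-- A length function on a group whose associated left-invariant pseudometric is
`δ`-hyperbolic (four-point condition at the identity). -/
structure HypLen (ℓ : G → ℝ) (δ : ℝ) : Prop where
  one : ℓ 1 = 0
  inv : ∀ g, ℓ g⁻¹ = ℓ g
  mul_le : ∀ g h, ℓ (g * h) ≤ ℓ g + ℓ h
  hyp : ∀ a b c, min (gp ℓ a b) (gp ℓ b c) - δ ≤ gp ℓ a c

/-- `g` is reached from `1` by a path of `k` steps of length at most `D0`. -/
def Reach (ℓ : G → ℝ) (D0 : ℝ) (k : ℕ) (g : G) : Prop :=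
  ∃ u : ℕ → G, u 0 = 1 ∧ u k = g ∧ ∀ j < k, ℓ ((u j)⁻¹ * u (j + 1)) ≤ D0

/-- The `p`-excursions of size in `[M, 2M)` of the geodesic from `1` to `g`: pairs `(v, m)` such
that `v` and `v p^m` are within height `D` and in this order. -/
def Cand (ℓ : G → ℝ) (p : G) (D : ℝ) (M : ℕ) (g : G) : Set (G × ℕ) :=
  {c | M ≤ c.2 ∧ c.2 < 2 * M ∧ ht ℓ g c.1 ≤ D ∧ ht ℓ g (c.1 * p ^ c.2) ≤ D ∧
    tt ℓ g c.1 < tt ℓ g (c.1 * p ^ c.2)}

/-- Local information on a group with a length function near an (almost) parabolic element `p`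
and a second element `q`, for exponents `m < mmax` and radii `r ≤ rmax`. -/
structure LocalData (ℓ : G → ℝ) (p q : G) (D0 Cp : ℝ) (N : ℝ → ℕ) (E : ℝ → ℝ)
    (mmax : ℕ) (rmax : ℝ) : Prop where
  proper : ∀ r : ℝ, {g | ℓ g ≤ r}.Finite
  ball : ∀ r ≤ rmax, {g | ℓ g ≤ r}.ncard ≤ N r
  q_len : ℓ q ≤ Cp
  p_ne : ∀ m, 1 ≤ m → m < mmax → p ^ m ≠ 1
  p_len : ∀ m : ℕ, 1 ≤ m → m < mmax → |ℓ (p ^ m) - 2 * Real.log m| ≤ Cp
  dir_pos : ∀ m, 1 ≤ m → m < mmax → gp ℓ (p ^ m) (q * p ^ m) ≤ Cp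
  dir_neg : ∀ m, 1 ≤ m → m < mmax → gp ℓ (p ^ m)⁻¹ (q * (p ^ m)⁻¹) ≤ Cp
  near : ∀ m, 1 ≤ m → m < mmax → ∀ D ≤ rmax, ∀ y, ht ℓ (p ^ m) y ≤ D →
    ℓ y ≤ E D ∨ ℓ (y⁻¹ * p ^ m) ≤ E D
  path : ∀ m : ℕ, 1 ≤ m → m < mmax → ∀ D ≤ rmax, ∀ (r : ℕ) (u : ℕ → G),
    (∀ j < r, ℓ ((u j)⁻¹ * u (j + 1)) ≤ D0) → gp ℓ (u 0) (p ^ m) ≤ D →
    ℓ (p ^ m) - D ≤ gp ℓ (u r) (p ^ m) → (m : ℝ) ≤ E D * (r + 1)

/-- Partial products `w 0 * ⋯ * w (i-1)`. -/
def Uw (w : ℕ → G) : ℕ → G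
  | 0 => 1
  | i + 1 => Uw w i * w i

/-- Partial products `w 0 * x 0 * w 1 * x 1 * ⋯ * w (i-1) * x (i-1)`. -/
def Yw (w x : ℕ → G) : ℕ → G
  | 0 => 1
  | i + 1 => Yw w x i * w i * x i

/-- The word `w 0 * x 0 * w 1 * ⋯ * x (K-1) * w K` obtained from `w 0 * ⋯ * w K` by inserting the
`x i`. -/
def ins (w x : ℕ → G) (K : ℕ) : G := Yw w x K * w K

/-- `w 0, x 0, w 1, …, x (K-1), w K` is a locally quasi-geodesic chain. -/
structure Chain (ℓ : G → ℝ) (C Λ : ℝ) (w x : ℕ → G) (K : ℕ) : Prop where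
  w_len : ∀ i ≤ K, Λ ≤ ℓ (w i)
  x_len : ∀ i < K, Λ ≤ ℓ (x i)
  wx : ∀ i < K, gp ℓ (w i)⁻¹ (x i) ≤ C
  xw : ∀ i < K, gp ℓ (x i)⁻¹ (w (i + 1)) ≤ C

/-- The pieces of `g` between consecutive cut elements `u 0, …, u (K-1)`. -/
def pieces (g : G) (u : ℕ → G) (K : ℕ) : ℕ → G := fun i =>
  if i = 0 then u 0 else if i < K then (u (i - 1))⁻¹ * u i else (u (K - 1))⁻¹ * g

/-- `u 0, …, u (K-1)` are cut positions of `g`: height at most `D1`, coordinates increasing with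
gaps at least `Δ`, also at both ends. -/
structure Cuts (ℓ : G → ℝ) (D1 Δ : ℝ) (g : G) (u : ℕ → G) (K : ℕ) : Prop where
  height : ∀ i < K, ht ℓ g (u i) ≤ D1
  first : 0 < K → Δ ≤ tt ℓ g (u 0)
  gap : ∀ i, i + 1 < K → tt ℓ g (u i) + Δ ≤ tt ℓ g (u (i + 1))
  last : 0 < K → tt ℓ g (u (K - 1)) + Δ ≤ ℓ g

end Abstract

/-! ### Part B: `SL(2, ℝ)` -/

/-- Length of an element of `SL(2, ℝ)`: hyperbolic displacement of `I`. -/
noncomputable def len (g : SL(2, ℝ)) : ℝ := dist (g • (UpperHalfPlane.I : ℍ)) UpperHalfPlane.I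

/-- The same length on a subgroup. -/
noncomputable def slen (Γ : Subgroup SL(2, ℝ)) : Γ → ℝ := fun g => len g

/-- The standard parabolic matrix. -/
def Tm : SL(2, ℝ) := ⟨!![1, 1; 0, 1], by simp [Matrix.det_fin_two]⟩

/-- Action on the boundary `OnePoint ℝ` of `ℍ`. -/
noncomputable def bact (g : SL(2, ℝ)) (x : OnePoint ℝ) : OnePoint ℝ := (g : GL (Fin 2) ℝ) • x

/-- Möbius action of `SL(2, ℝ)` on its boundary. -/
noncomputable instance : MulAction SL(2, ℝ) (OnePoint ℝ) :=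
  MulAction.compHom (OnePoint ℝ) (Matrix.SpecialLinearGroup.toGL (n := Fin 2) (R := ℝ))

theorem smul_eq_bact (g : SL(2, ℝ)) (x : OnePoint ℝ) : g • x = bact g x := rfl

/-- Euclidean stretch squared `‖g v‖ ^ 2 / ‖v‖ ^ 2` of a vector `v` on the line of the boundary
point (`v = (x, 1)` for `x : ℝ` and `v = (1, 0)` for `∞`). -/
noncomputable def stretchSq (g : SL(2, ℝ)) : OnePoint ℝ → ℝ
  | none => g 0 0 ^ 2 + g 1 0 ^ 2
  | some x => ((g 0 0 * x + g 0 1) ^ 2 + (g 1 0 * x + g 1 1) ^ 2) / (x ^ 2 + 1)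

/-- Critical exponent of a subgroup of `SL(2, ℝ)`. -/
noncomputable def critExp (Γ : Subgroup SL(2, ℝ)) : ℝ :=
  sInf {s : ℝ | 0 ≤ s ∧ Summable fun g : Γ => Real.exp (-s * slen Γ g)}

/-- `Γ` has a measurable set of finite hyperbolic area meeting every orbit. -/
def HasFiniteCovolume (Γ : Subgroup SL(2, ℝ)) : Prop :=
  ∃ F : Set ℍ, MeasurableSet F ∧ volume F < ⊤ ∧ ∀ z : ℍ, ∃ γ ∈ Γ, γ • z ∈ F

/-- Some compact set meets every `Γ`-orbit. -/
def IsCocompact (Γ : Subgroup SL(2, ℝ)) : Prop :=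
  ∃ K : Set ℍ, IsCompact K ∧ ∀ z : ℍ, ∃ γ ∈ Γ, γ • z ∈ K

/-- Value of a word in the letters `s i` (flag `true`) and `(s i)⁻¹` (flag `false`). -/
def wordVal {G ι : Type*} [Group G] (s : ι → G) (W : List (ι × Bool)) : G :=
  (W.map fun c => if c.2 then s c.1 else (s c.1)⁻¹).prod

/-- Exponent sum of a word. -/
def wordExp {ι : Type*} (W : List (ι × Bool)) : ℤ :=
  (W.map fun c => if c.2 then (1 : ℤ) else -1).sum

/-- Two elements `x, y` play ping-pong on `X`, and `x y⁻¹`, `x⁻¹ y` are values of words of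
exponent sum zero and length at most `L` in the letters `s i`. -/
def HasPingPong {G ι : Type*} (X : Type*) [Group G] [MulAction G X] (s : ι → G) (L : ℕ) : Prop :=
  ∃ (x y : G) (Xp Xm Yp Ym : Set X),
    Disjoint Xp Xm ∧ Disjoint Yp Ym ∧ Disjoint (Xp ∪ Xm) (Yp ∪ Ym) ∧
    (∀ z, z ∉ Xp ∪ Xm → x • z ∈ Xp) ∧ (∀ z, z ∉ Xp ∪ Xm → x⁻¹ • z ∈ Xm) ∧
    (∀ z, z ∉ Yp ∪ Ym → y • z ∈ Yp) ∧ (∀ z, z ∉ Yp ∪ Ym → y⁻¹ • z ∈ Ym) ∧
    (∃ W : List (ι × Bool), W.length ≤ L ∧ wordExp W = 0 ∧ wordVal s W = x * y⁻¹) ∧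
    (∃ W : List (ι × Bool), W.length ≤ L ∧ wordExp W = 0 ∧ wordVal s W = x⁻¹ * y)

open Classical in
/-- Law of the product of `k` independent steps, each equal to `s i` with probability `w i`:
`walkProb s w (k + 1) = ∑ i, w i • (translate by s i of walkProb s w k)`. -/
noncomputable def walkProb {G ι : Type*} [Group G] [Fintype ι] (s : ι → G) (w : ι → ℝ) :
    ℕ → G → ℝ
  | 0 => fun g => if g = 1 then 1 else 0
  | k + 1 => fun g => ∑ i, w i * walkProb s w k ((s i)⁻¹ * g)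

/-- `Γs n → Γ` in the Chabauty (Fell) topology on closed subgroups. -/
def ChabautyTendsto {H : Type*} [Group H] [TopologicalSpace H] (Γs : ℕ → Subgroup H)
    (Γ : Subgroup H) : Prop :=
  (∀ g ∈ Γ, ∃ u : ℕ → H, (∀ n, u n ∈ Γs n) ∧ Tendsto u atTop (𝓝 g)) ∧
  (∀ (u : ℕ → H) (φ : ℕ → ℕ), StrictMono φ → (∀ k, u k ∈ Γs (φ k)) →
    ∀ g, Tendsto u atTop (𝓝 g) → g ∈ Γ)

/-- Borel σ-algebra on the boundary. -/
instance : MeasurableSpace (OnePoint ℝ) := borel _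

instance : BorelSpace (OnePoint ℝ) := ⟨rfl⟩

/-- `ν` is stationary for the measure `∑ w i δ_{s i}` on `SL(2, ℝ)`. -/
def Stationary {ι : Type*} [Fintype ι] (s : ι → SL(2, ℝ)) (w : ι → ℝ)
    (ν : Measure (OnePoint ℝ)) : Prop :=
  ν = ∑ i, ENNReal.ofReal (w i) • ν.map (bact (s i))

/-- `κ` is conformal of exponent `δ` for `Γ` (visual metric seen from `I`): the derivative of `γ`
at a boundary point is `(stretchSq γ)⁻¹`. -/
def Conformal (Γ : Subgroup SL(2, ℝ)) (δ : ℝ) (κ : Measure (OnePoint ℝ)) : Prop :=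
  ∀ γ ∈ Γ, ∀ A : Set (OnePoint ℝ), MeasurableSet A →
    κ (bact γ '' A) = ∫⁻ x in A, ENNReal.ofReal (stretchSq γ x ^ (-δ)) ∂κ

end Pool.Agent.Helper54.FH
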