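import Pool.Agent.Helper54.FH.Basic

/-!
# Definitions for the statement in `PSL(2, ℝ)`
-/

set_option autoImplicit false

open scoped MatrixGroups UpperHalfPlane Topology
open UpperHalfPlane Matrix Filter MeasureTheory

namespace Pool.Agent.Helper54.FH

/-- Full preimage in `SL(2, ℝ)` of a subgroup of `PSL(2, ℝ)`. -/
def fullLift (Γ : Subgroup PSL(2, ℝ)) : Subgroup SL(2, ℝ) :=
  Γ.comap (QuotientGroup.mk' (Subgroup.center SL(2, ℝ)))

/-- Inclusion of `ℍ` in the Riemann sphere. -/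
noncomputable def toSphere (z : ℍ) : OnePoint ℂ := ((z : ℂ) : OnePoint ℂ)

/-- Inclusion of the boundary circle `OnePoint ℝ` in the Riemann sphere. -/
noncomputable def bdToSphere (x : OnePoint ℝ) : OnePoint ℂ := x.map (fun t : ℝ => (t : ℂ))

/-- Action of `PSL(2, ℝ)` on `ℍ` (through any representative). -/
noncomputable def pact (g : PSL(2, ℝ)) (z : ℍ) : ℍ := (Quotient.out g : SL(2, ℝ)) • z

/-- `ν` is the hitting measure of the random walk with step law `μ`: for i.i.d. steps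
`X 0, X 1, …` of law `μ` the points `X 0 ⋯ X (k-1) • I` converge almost surely to a boundary point
`ξ`, and `ν` is the law of `ξ`. -/
def IsHittingMeasure (μ : PMF PSL(2, ℝ)) (ν : Measure (OnePoint ℝ)) : Prop :=
  ∃ (Ω : Type) (_ : MeasurableSpace Ω) (P : Measure Ω) (X : ℕ → Ω → PSL(2, ℝ))
    (ξ : Ω → OnePoint ℝ), IsProbabilityMeasure P ∧
    (∀ (k : ℕ) (a : ℕ → PSL(2, ℝ)), MeasurableSet {ω | ∀ j < k, X j ω = a j} ∧
      P {ω | ∀ j < k, X j ω = a j} = ∏ j ∈ Finset.range k, μ (a j)) ∧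
    Measurable ξ ∧
    (∀ᵐ ω ∂P, Tendsto
      (fun k => toSphere (pact (List.ofFn fun j : Fin k => X j ω).prod UpperHalfPlane.I)) atTop
      (𝓝 (bdToSphere (ξ ω)))) ∧
    ν = P.map ξ

/-- Finite subsets converge in the Hausdorff sense. -/
def FiniteSetsTendsto {H : Type*} [TopologicalSpace H] (Ss : ℕ → Set H) (S : Set H) : Prop :=
  (∀ s ∈ S, ∃ u : ℕ → H, (∀ n, u n ∈ Ss n) ∧ Tendsto u atTop (𝓝 s)) ∧
  (∀ U : Set H, IsOpen U → S ⊆ U → ∀ᶠ n in atTop, Ss n ⊆ U)

end Pool.Agent.Helper54.FH
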